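import Mathlib
import Pool.Agent.Y354.FS.Rel

/-!
# The sets of moduli of infinite disjoint covering systems with distinct moduli

Complete list of the sets of moduli of the infinite disjoint covering systems of the positive
integers with distinct moduli and reciprocal sum `1`.
-/

namespace Pool.Agent.Results.MP_cda74c_nt.ModuliSets

open Pool.Agent.Results.MP_cda74c_nt.Full (residueClass IsInfiniteDisjointCoveringSystem)

universe u

/-- `{2, 4, 8, …}` -/
def PowersOfTwo : Set ℕ := {n | ∃ b : ℕ, 1 ≤ b ∧ n = 2 ^ b}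

/-- `{2, 4, …, 2^β} ∪ {2^b 3^j : b ≥ β, j ≥ 1}` -/
def FamilyA (β : ℕ) : Set ℕ :=
  {n | (∃ b : ℕ, 1 ≤ b ∧ b ≤ β ∧ n = 2 ^ b) ∨ ∃ b j : ℕ, β ≤ b ∧ 1 ≤ j ∧ n = 2 ^ b * 3 ^ j}

/-- `{2^b : b ≥ 1, b ≠ β} ∪ {2^b 3^j : b ≥ β, j ≥ 1}` -/
def FamilyB (β : ℕ) : Set ℕ :=
  {n | (∃ b : ℕ, 1 ≤ b ∧ b ≠ β ∧ n = 2 ^ b) ∨ ∃ b j : ℕ, β ≤ b ∧ 1 ≤ j ∧ n = 2 ^ b * 3 ^ j}

/-- Pairwise disjoint residue classes `a i mod m i` with distinct moduli at least `2` and total
density one (they need not cover anything). -/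
structure IsFullDisjointFamily {ι : Type u} (a : ι → ℤ) (m : ι → ℕ) : Prop where
  two_le : ∀ i, 2 ≤ m i
  injective : Function.Injective m
  disjoint : ∀ i j, i ≠ j → Disjoint (residueClass (a i) (m i)) (residueClass (a j) (m j))
  sum : ∑' i, (1 : ℝ) / (m i : ℝ) = 1

theorem necessary {ι : Type u} {a : ι → ℤ} {m : ι → ℕ} (h : IsFullDisjointFamily a m) :
    Set.range m = PowersOfTwo ∨ (∃ β, Set.range m = FamilyA β) ∨
      (∃ β, 1 ≤ β ∧ Set.range m = FamilyB β) := by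
  have hd : Pool.Agent.Y354.FS.Disj a m :=
    ⟨fun i => by have := h.two_le i; omega,
      fun i j hij x hx => Set.disjoint_left.mp (h.disjoint i j hij) hx.1 hx.2⟩
  exact Pool.Agent.Y354.FS.moduli_set a m hd h.injective h.two_le h.sum

/-- The classes of a disjoint covering system of the positive integers are pairwise disjoint. -/
theorem ofSystem {ι : Type u} {a : ι → ℤ} {m : ι → ℕ}
    (hs : IsInfiniteDisjointCoveringSystem a m) (hinj : Function.Injective m)
    (hsum : ∑' i, (1 : ℝ) / (m i : ℝ) = 1) : IsFullDisjointFamily a m := by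
  refine ⟨hs.two_le, hinj, fun i j hij => ?_, hsum⟩
  rw [Set.disjoint_left]
  intro x hx1 hx2
  have hi := hs.two_le i
  have hj := hs.two_le j
  set y : ℤ := x + (m i : ℤ) * (m j : ℤ) * (|x| + 1) with hy
  have hy0 : 0 < y := by
    have h1 : (1 : ℤ) ≤ (m i : ℤ) * (m j : ℤ) := by
      have : 1 ≤ m i * m j := Nat.one_le_iff_ne_zero.mpr (by positivity)
      exact_mod_cast this
    have h2 : 0 ≤ |x| := abs_nonneg x
    have h3 : -|x| ≤ x := neg_abs_le x
    nlinarith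
  have hy1 : y ∈ residueClass (a i) (m i) := by
    change y ≡ a i [ZMOD (m i : ℤ)]
    have h1 : x ≡ y [ZMOD (m i : ℤ)] := by
      rw [Int.modEq_iff_dvd]
      exact ⟨(m j : ℤ) * (|x| + 1), by rw [hy]; ring⟩
    exact h1.symm.trans hx1
  have hy2 : y ∈ residueClass (a j) (m j) := by
    change y ≡ a j [ZMOD (m j : ℤ)]
    have h1 : x ≡ y [ZMOD (m j : ℤ)] := by
      rw [Int.modEq_iff_dvd]
      exact ⟨(m i : ℤ) * (|x| + 1), by rw [hy]; ring⟩
    exact h1.symm.trans hx2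
  obtain ⟨l, _, hl⟩ := hs.exactly_one y hy0
  exact hij ((hl i hy1).trans (hl j hy2).symm)

theorem sufficient {D : Set ℕ} (hD : D = PowersOfTwo ∨ (∃ β, D = FamilyA β) ∨
      (∃ β, 1 ≤ β ∧ D = FamilyB β)) :
    ∃ (ι : Type) (a : ι → ℤ) (m : ι → ℕ), IsInfiniteDisjointCoveringSystem a m ∧
      Function.Injective m ∧ ∑' i, (1 : ℝ) / (m i : ℝ) = 1 ∧ Set.range m = D := by
  have hD' : Pool.Agent.Y354.FS.IsModuliSet D := hD
  obtain ⟨ι, a, m, hp, hi, hr, hc, hs⟩ := Pool.Agent.Y354.FS.rea_of_isModuliSet hD'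
  have hinf : Infinite ι := by
    by_contra hcon
    rw [not_infinite_iff_finite] at hcon
    have h1 := Pool.Agent.Y354.FS.infinite_of_isModuliSet hD'
    rw [← hr] at h1
    exact h1 (Set.finite_range m)
  have h1D : 1 ∉ D := by
    have hno : ∀ b j : ℕ, 1 ≤ j → 1 ≠ 2 ^ b * 3 ^ j := by
      intro b j hj h
      have h4 : 2 ^ 0 * 3 ^ 0 = 2 ^ b * 3 ^ j := by rw [← h]; norm_num
      have := (Pool.Agent.Y354.FS.two_three_inj h4).2
      omega
    have hno' : ∀ b : ℕ, 1 ≤ b → 1 ≠ 2 ^ b := by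
      intro b hb h
      have : 1 < 2 ^ b := Nat.one_lt_two_pow (by omega)
      omega
    rcases hD with rfl | ⟨β, rfl⟩ | ⟨β, _, rfl⟩
    · rintro ⟨b, hb, h⟩
      exact hno' b hb h
    · rintro (⟨b, hb, _, h⟩ | ⟨b, j, _, hj, h⟩)
      · exact hno' b hb h
      · exact hno b j hj h
    · rintro (⟨b, hb, _, h⟩ | ⟨b, j, _, hj, h⟩)
      · exact hno' b hb h
      · exact hno b j hj h
  refine ⟨ι, fun i => a i + 1, m, ⟨hinf, ?_, ?_⟩, hi, hs.tsum_eq, hr⟩
  · intro i
    have h1 := hp i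
    have h2 : m i ≠ 1 := by
      intro h
      apply h1D
      rw [← hr, ← h]
      exact Set.mem_range_self i
    omega
  · intro n hn
    obtain ⟨i, hi', hiu⟩ := hc (n - 1) (by omega)
    refine ⟨i, ?_, ?_⟩
    · change n ≡ a i + 1 [ZMOD (m i : ℤ)]
      have := hi'.add_right 1
      rwa [sub_add_cancel] at this
    · intro j hj
      change n ≡ a j + 1 [ZMOD (m j : ℤ)] at hj
      apply hiu
      have := hj.sub_right 1
      rwa [add_sub_cancel_right] at this

/-- **The sets of moduli.**  (1) Every modulus of an infinite disjoint covering system of the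
positive integers with distinct moduli and reciprocal sum `1` is of the form `2^α 3^β`.
(2) A set `D` is the set of moduli of such a system if and only if it is `{2, 4, 8, …}`, or
`{2, 4, …, 2^β} ∪ {2^b 3^j : b ≥ β, j ≥ 1}` with `β ≥ 0`, or
`{2^b : b ≥ 1, b ≠ β} ∪ {2^b 3^j : b ≥ β, j ≥ 1}` with `β ≥ 1`.
(3) The same list holds for all families of pairwise disjoint residue classes with distinct moduli
at least `2` and reciprocal sum `1`. -/
theorem result :
    (∀ (ι : Type u) (a : ι → ℤ) (m : ι → ℕ), IsInfiniteDisjointCoveringSystem a m →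
      Function.Injective m → ∑' i, (1 : ℝ) / (m i : ℝ) = 1 →
      ∀ i, ∃ α β : ℕ, m i = 2 ^ α * 3 ^ β) ∧
    (∀ D : Set ℕ, (∃ (ι : Type) (a : ι → ℤ) (m : ι → ℕ), IsInfiniteDisjointCoveringSystem a m ∧
      Function.Injective m ∧ ∑' i, (1 : ℝ) / (m i : ℝ) = 1 ∧ Set.range m = D) ↔
      (D = PowersOfTwo ∨ (∃ β, D = FamilyA β) ∨ (∃ β, 1 ≤ β ∧ D = FamilyB β))) ∧
    (∀ (ι : Type u) (a : ι → ℤ) (m : ι → ℕ), IsFullDisjointFamily a m →
      (Set.range m = PowersOfTwo ∨ (∃ β, Set.range m = FamilyA β) ∨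
        (∃ β, 1 ≤ β ∧ Set.range m = FamilyB β))) := by
  refine ⟨?_, ?_, fun ι a m h => necessary h⟩
  · intro ι a m hs hinj hsum i
    have hmem : m i ∈ Set.range m := Set.mem_range_self i
    rcases necessary (ofSystem hs hinj hsum) with h | ⟨β, h⟩ | ⟨β, _, h⟩
    · rw [h] at hmem
      obtain ⟨b, _, hb⟩ := hmem
      exact ⟨b, 0, by rw [hb, pow_zero, mul_one]⟩
    · rw [h] at hmem
      rcases hmem with ⟨b, _, _, hb⟩ | ⟨b, j, _, _, hb⟩
      · exact ⟨b, 0, by rw [hb, pow_zero, mul_one]⟩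
      · exact ⟨b, j, hb⟩
    · rw [h] at hmem
      rcases hmem with ⟨b, _, _, hb⟩ | ⟨b, j, _, _, hb⟩
      · exact ⟨b, 0, by rw [hb, pow_zero, mul_one]⟩
      · exact ⟨b, j, hb⟩
  · intro D
    constructor
    · rintro ⟨ι, a, m, hs, hinj, hsum, rfl⟩
      exact necessary (ofSystem hs hinj hsum)
    · exact sufficient

end Pool.Agent.Results.MP_cda74c_nt.ModuliSets
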