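import Mathlib
import Pool.Agent.Y354.FS.Asy

/-!
# Disjoint covering systems with repeated moduli: the threshold `e^γ M log M`

The Fraenkel-Simpson conjecture says that in an infinite disjoint covering system of the positive
integers with distinct moduli and reciprocal sum `1` every modulus is of the form `2^α 3^β`.  Here
the moduli may be repeated: each modulus occurs at most `M` times (`M = 1` is the conjecture).
-/

namespace Pool.Agent.Results.MP_cda74c_nt.RepeatedModuli

open Finset
open Pool.Agent.Results.MP_cda74c_nt.Full (residueClass IsInfiniteDisjointCoveringSystem)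

universe u

/-- A family of pairwise disjoint residue classes `a i mod m i` (it need not cover anything). -/
structure IsDisjointFamily {ι : Type u} (a : ι → ℤ) (m : ι → ℕ) : Prop where
  pos : ∀ i, 0 < m i
  disjoint : ∀ i j, i ≠ j → Disjoint (residueClass (a i) (m i)) (residueClass (a j) (m j))

/-- Every modulus occurs at most `M` times. -/
def MultiplicityAtMost {ι : Type u} (m : ι → ℕ) (M : ℕ) : Prop :=
  ∀ n : ℕ, {i | m i = n}.encard ≤ M

/-- The sum of `1 / m i` over the moduli without prime factors larger than `Q`. -/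
noncomputable def smoothDensity {ι : Type u} (m : ι → ℕ) (Q : ℕ) : ℝ :=
  ∑' i, {i | ∀ p : ℕ, p.Prime → p ∣ m i → p ≤ Q}.indicator (fun i => (1 : ℝ) / (m i : ℝ)) i

/-- `(p - 1) ∏_{q < p} (1 - 1/q)`, the product over the primes `q < p`. -/
noncomputable def weight (p : ℕ) : ℝ :=
  ((p : ℝ) - 1) * ∏ q ∈ (range p).filter Nat.Prime, (1 - 1 / (q : ℝ))

/-- The prime `p` divides some modulus of some infinite disjoint covering system of the positive
integers with reciprocal sum `1` in which every modulus occurs at most `M` times. -/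
def Occurs (M p : ℕ) : Prop :=
  ∃ (ι : Type) (a : ι → ℤ) (m : ι → ℕ), IsInfiniteDisjointCoveringSystem a m ∧
    MultiplicityAtMost m M ∧ ∑' i, (1 : ℝ) / (m i : ℝ) = 1 ∧ ∃ i, p ∣ m i

open Pool.Agent.Y354.FS in
theorem toDisj {ι : Type u} {a : ι → ℤ} {m : ι → ℕ} (hd : IsDisjointFamily a m) : Disj a m where
  pos := hd.pos
  disj i j hij x hx := Set.disjoint_left.mp (hd.disjoint i j hij) hx.1 hx.2

open Pool.Agent.Y354.FS in
theorem toMult {ι : Type u} {m : ι → ℕ} {M : ℕ} (hm : MultiplicityAtMost m M) : Mult m M := by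
  intro n F hF
  have h1 : (F : Set ι).encard ≤ {i | m i = n}.encard :=
    Set.encard_le_encard (fun i hi => hF i hi)
  have h2 := h1.trans (hm n)
  rw [Set.encard_coe_eq_coe_finsetCard] at h2
  exact_mod_cast h2

open Pool.Agent.Y354.FS in
theorem ofMult {ι : Type u} {m : ι → ℕ} {M : ℕ} (hm : Mult m M) : MultiplicityAtMost m M := by
  intro n
  by_contra hcon
  push Not at hcon
  have h1 : ((M + 1 : ℕ) : ℕ∞) ≤ {i | m i = n}.encard := by
    push_cast
    exact Order.add_one_le_of_lt hcon
  obtain ⟨t, hts, ht⟩ := Set.exists_subset_encard_eq h1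
  have hfin : t.Finite := Set.finite_of_encard_eq_coe ht
  have h2 := hm n hfin.toFinset (fun i hi => hts (hfin.mem_toFinset.mp hi))
  rw [hfin.encard_eq_coe_toFinset_card] at ht
  have h3 : hfin.toFinset.card = M + 1 := by exact_mod_cast ht
  omega

theorem injective_mult {ι : Type u} {m : ι → ℕ} (hm : Function.Injective m) :
    MultiplicityAtMost m 1 := by
  intro n
  rw [Nat.cast_one, Set.encard_le_one_iff]
  intro i j hi hj
  exact hm (hi.trans hj.symm)

/-- The classes of a disjoint covering system of the positive integers are pairwise disjoint. -/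
theorem ofSystem {ι : Type u} {a : ι → ℤ} {m : ι → ℕ}
    (hs : IsInfiniteDisjointCoveringSystem a m) : IsDisjointFamily a m where
  pos i := by
    have := hs.two_le i
    omega
  disjoint i j hij := by
    rw [Set.disjoint_left]
    intro x hx1 hx2
    have hi := hs.two_le i
    have hj := hs.two_le j
    set y : ℤ := x + (m i : ℤ) * (m j : ℤ) * (|x| + 1) with hy
    have hy0 : 0 < y := by
      have h1 : (1 : ℤ) ≤ (m i : ℤ) * (m j : ℤ) := by
        have : 1 ≤ m i * m j := Nat.one_le_iff_ne_zero.mpr (by positivity)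
        exact_mod_cast this
      have h2 : 0 ≤ |x| := abs_nonneg x
      have h3 : -|x| ≤ x := neg_abs_le x
      nlinarith
    have hy1 : y ∈ residueClass (a i) (m i) := by
      change y ≡ a i [ZMOD (m i : ℤ)]
      have h1 : x ≡ y [ZMOD (m i : ℤ)] := by
        rw [Int.modEq_iff_dvd]
        exact ⟨(m j : ℤ) * (|x| + 1), by rw [hy]; ring⟩
      exact h1.symm.trans hx1
    have hy2 : y ∈ residueClass (a j) (m j) := by
      change y ≡ a j [ZMOD (m j : ℤ)]
      have h1 : x ≡ y [ZMOD (m j : ℤ)] := by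
        rw [Int.modEq_iff_dvd]
        exact ⟨(m i : ℤ) * (|x| + 1), by rw [hy]; ring⟩
      exact h1.symm.trans hx2
    obtain ⟨l, _, hl⟩ := hs.exactly_one y hy0
    exact hij ((hl i hy1).trans (hl j hy2).symm)

open Pool.Agent.Y354.FS in
theorem weight_eq {p : ℕ} (hp : p.Prime) : weight p = g (p - 1) := by
  unfold weight g Pool.Agent.Results.MP_cda74c_nt.Full.h
  rw [Nat.sub_add_cancel hp.one_lt.le, Nat.cast_sub hp.one_lt.le, Nat.cast_one]

open Pool.Agent.Y354.FS in
theorem smooth_eq {ι : Type u} (m : ι → ℕ) (Q : ℕ) : smoothDensity m Q = sn m Q := by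
  classical
  unfold smoothDensity sn
  apply tsum_congr
  intro i
  unfold rc
  rw [Set.indicator_apply]
  by_cases hh : Pool.Agent.Results.MP_cda74c_nt.Full.Sm Q (m i)
  · rw [if_pos hh]
    exact if_pos hh
  · rw [if_neg hh]
    exact if_neg hh

/-- The inequality for the primes dividing the moduli. -/
theorem bound (M : ℕ) {ι : Type u} (a : ι → ℤ) (m : ι → ℕ) (hd : IsDisjointFamily a m)
    (hm : MultiplicityAtMost m M) (hs : ∑' i, (1 : ℝ) / (m i : ℝ) = 1) (i : ι) (p : ℕ)
    (hp : p.Prime) (hpi : p ∣ m i) : weight p ≤ M := by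
  rw [weight_eq hp]
  exact Pool.Agent.Y354.FS.prime_bound M a m (toDisj hd) (toMult hm) hs i p hp hpi

open Pool.Agent.Y354.FS in
theorem stab (M Q : ℕ) (hQ : ∀ p : ℕ, p.Prime → Q < p → (M : ℝ) < weight p) :
    ∃ c : ℝ, 0 < c ∧ ∀ (ι : Type u) (a : ι → ℤ) (m : ι → ℕ), IsDisjointFamily a m →
      MultiplicityAtMost m M →
      c * (1 - smoothDensity m Q) ≤ 1 - ∑' i, (1 : ℝ) / (m i : ℝ) := by
  classical
  have hex : ∃ p : ℕ, p.Prime ∧ Q < p := by
    obtain ⟨p, hp1, hp2⟩ := Nat.exists_infinite_primes (Q + 1)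
    exact ⟨p, hp2, hp1⟩
  set P := Nat.find hex with hP
  obtain ⟨hPp, hQP⟩ := Nat.find_spec hex
  have hmin : ∀ p : ℕ, p.Prime → Q < p → P ≤ p := fun p h1 h2 => Nat.find_min' hex ⟨h1, h2⟩
  have hw := hQ P hPp hQP
  rw [weight_eq hPp] at hw
  obtain ⟨c, hc, hst⟩ := stability.{u} M (P - 1) hw
  refine ⟨c, hc, fun ι a m hd hm => ?_⟩
  have h1 := hst ι a m (toDisj hd) (toMult hm)
  have h2 : smoothDensity m Q = sn m (P - 1) := by
    rw [smooth_eq]
    unfold sn
    apply tsum_congr
    intro i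
    unfold rc
    have hiff : Pool.Agent.Results.MP_cda74c_nt.Full.Sm Q (m i) ↔
        Pool.Agent.Results.MP_cda74c_nt.Full.Sm (P - 1) (m i) := by
      constructor
      · intro hh p hp hpm
        have := hh p hp hpm
        omega
      · intro hh p hp hpm
        have h3 := hh p hp hpm
        by_contra hcon
        have := hmin p hp (by omega)
        have := hPp.two_le
        omega
    rw [hiff]
  rw [h2]
  exact h1

/-! ### The first values -/

open Pool.Agent.Y354.FS in
open Pool.Agent.Results.MP_cda74c_nt.Full in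
theorem g_values : g 4 = 4 / 3 ∧ (2 : ℝ) < g 10 ∧ (3 : ℝ) < g 16 := by
  have h3 := h_three
  have h4 : h 4 = 1 / 3 := by rw [h_succ_not_prime 3 (by norm_num), h3]
  have h5 : h 5 = 4 / 15 := by rw [h_succ_prime 4 (by norm_num), h4]; norm_num
  have h6 : h 6 = 4 / 15 := by rw [h_succ_not_prime 5 (by norm_num), h5]
  have h7 : h 7 = 8 / 35 := by rw [h_succ_prime 6 (by norm_num), h6]; norm_num
  have h8 : h 8 = 8 / 35 := by rw [h_succ_not_prime 7 (by norm_num), h7]
  have h9 : h 9 = 8 / 35 := by rw [h_succ_not_prime 8 (by norm_num), h8]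
  have h10 : h 10 = 8 / 35 := by rw [h_succ_not_prime 9 (by norm_num), h9]
  have h11 : h 11 = 16 / 77 := by rw [h_succ_prime 10 (by norm_num), h10]; norm_num
  have h12 : h 12 = 16 / 77 := by rw [h_succ_not_prime 11 (by norm_num), h11]
  have h13 : h 13 = 192 / 1001 := by rw [h_succ_prime 12 (by norm_num), h12]; norm_num
  have h14 : h 14 = 192 / 1001 := by rw [h_succ_not_prime 13 (by norm_num), h13]
  have h15 : h 15 = 192 / 1001 := by rw [h_succ_not_prime 14 (by norm_num), h14]
  have h16 : h 16 = 192 / 1001 := by rw [h_succ_not_prime 15 (by norm_num), h15]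
  refine ⟨?_, ?_, ?_⟩
  · unfold g
    rw [h4]
    norm_num
  · unfold g
    rw [h10]
    norm_num
  · unfold g
    rw [h16]
    norm_num

open Pool.Agent.Y354.FS in
theorem not_occurs_of {M p x : ℕ} (hp : p.Prime) (hx : (M : ℝ) < g x) (h : Occurs M p) :
    p ≤ x := by
  obtain ⟨ι, a, m, hs, hm, hsum, i, hi⟩ := h
  by_contra hcon
  have h1 := prime_bound M a m (toDisj (ofSystem hs)) (toMult hm) hsum i p hp hi
  have h2 := g_mono (show x ≤ p - 1 by omega)
  linarith

open Pool.Agent.Y354.FS in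
theorem occurs_of {M p : ℕ} (hp : p.Prime) (hc : p - 1 ≤ cap M (p - 1)) : Occurs M p := by
  obtain ⟨ι, a, m, hs, hm, hsum, hi⟩ := exists_system M p hp hc
  have := hs.infinite
  exact ⟨ι, a, m, hs, ofMult hm, hsum.tsum_eq, Classical.arbitrary ι, hi _⟩

open Pool.Agent.Y354.FS in
theorem cap_p {μ x : ℕ} (hp : (x + 1).Prime) : cap μ (x + 1) = cap μ x + cap μ x / x := by
  rw [cap, if_pos hp]

open Pool.Agent.Y354.FS in
theorem cap_n {μ x : ℕ} (hp : ¬ (x + 1).Prime) : cap μ (x + 1) = cap μ x := by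
  rw [cap, if_neg hp]

open Pool.Agent.Y354.FS in
theorem first_values (p : ℕ) (hp : p.Prime) :
    (Occurs 1 p ↔ p ≤ 3) ∧ (Occurs 2 p ↔ p ≤ 7) ∧ (Occurs 3 p ↔ p ≤ 13) := by
  obtain ⟨hg1, hg2, hg3⟩ := g_values
  have hp2 := hp.two_le
  have n1 : ¬ (0 + 1).Prime := by norm_num
  have p2 : (1 + 1).Prime := by norm_num
  have p3 : (2 + 1).Prime := by norm_num
  have n4 : ¬ (3 + 1).Prime := by norm_num
  have p5 : (4 + 1).Prime := by norm_num
  have n6 : ¬ (5 + 1).Prime := by norm_num
  have p7 : (6 + 1).Prime := by norm_num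
  have n8 : ¬ (7 + 1).Prime := by norm_num
  have n9 : ¬ (8 + 1).Prime := by norm_num
  have n10 : ¬ (9 + 1).Prime := by norm_num
  have p11 : (10 + 1).Prime := by norm_num
  have n12 : ¬ (11 + 1).Prime := by norm_num
  have c0 : ∀ μ, cap μ 0 = μ := fun _ => rfl
  refine ⟨⟨?_, ?_⟩, ⟨?_, ?_⟩, ⟨?_, ?_⟩⟩
  · intro h
    have h1 := not_occurs_of (x := 4) hp (by rw [hg1]; norm_num) h
    by_contra hcon
    have : p = 4 := by omega
    subst this
    revert hp
    norm_num
  · intro h
    have a1 : cap 1 1 = 1 := by rw [cap_n n1, c0]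
    have a2 : cap 1 2 = 2 := by rw [cap_p p2, a1]
    apply occurs_of hp
    interval_cases p
    · rw [a1]
    · rw [a2]
  · intro h
    have h1 := not_occurs_of (x := 10) hp (by exact_mod_cast hg2) h
    by_contra hcon
    have : p = 8 ∨ p = 9 ∨ p = 10 := by omega
    rcases this with rfl | rfl | rfl <;> revert hp <;> norm_num
  · intro h
    have a1 : cap 2 1 = 2 := by rw [cap_n n1, c0]
    have a2 : cap 2 2 = 4 := by rw [cap_p p2, a1]
    have a3 : cap 2 3 = 6 := by rw [cap_p p3, a2]
    have a4 : cap 2 4 = 6 := by rw [cap_n n4, a3]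
    have a5 : cap 2 5 = 7 := by rw [cap_p p5, a4]
    have a6 : cap 2 6 = 7 := by rw [cap_n n6, a5]
    apply occurs_of hp
    interval_cases p
    · rw [a1]; norm_num
    · rw [a2]; norm_num
    · exact absurd hp (by norm_num)
    · rw [a4]; norm_num
    · exact absurd hp (by norm_num)
    · rw [a6]; norm_num
  · intro h
    have h1 := not_occurs_of (x := 16) hp (by exact_mod_cast hg3) h
    by_contra hcon
    have : p = 14 ∨ p = 15 ∨ p = 16 := by omega
    rcases this with rfl | rfl | rfl <;> revert hp <;> norm_num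
  · intro h
    have a1 : cap 3 1 = 3 := by rw [cap_n n1, c0]
    have a2 : cap 3 2 = 6 := by rw [cap_p p2, a1]
    have a3 : cap 3 3 = 9 := by rw [cap_p p3, a2]
    have a4 : cap 3 4 = 9 := by rw [cap_n n4, a3]
    have a5 : cap 3 5 = 11 := by rw [cap_p p5, a4]
    have a6 : cap 3 6 = 11 := by rw [cap_n n6, a5]
    have a7 : cap 3 7 = 12 := by rw [cap_p p7, a6]
    have a8 : cap 3 8 = 12 := by rw [cap_n n8, a7]
    have a9 : cap 3 9 = 12 := by rw [cap_n n9, a8]
    have a10 : cap 3 10 = 12 := by rw [cap_n n10, a9]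
    have a11 : cap 3 11 = 13 := by rw [cap_p p11, a10]
    have a12 : cap 3 12 = 13 := by rw [cap_n n12, a11]
    apply occurs_of hp
    interval_cases p
    · rw [a1]; norm_num
    · rw [a2]; norm_num
    · exact absurd hp (by norm_num)
    · rw [a4]; norm_num
    · exact absurd hp (by norm_num)
    · rw [a6]; norm_num
    · exact absurd hp (by norm_num)
    · exact absurd hp (by norm_num)
    · exact absurd hp (by norm_num)
    · rw [a10]; norm_num
    · exact absurd hp (by norm_num)
    · rw [a12]; norm_num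

open Pool.Agent.Y354.FS in
theorem le_three_of_weight {p : ℕ} (hp : p.Prime) (h : weight p ≤ 1) : p ≤ 3 := by
  by_contra hcon
  rw [weight_eq hp] at h
  have h5 : 4 ≤ p - 1 := by
    have : p ≠ 4 := by
      rintro rfl
      revert hp
      norm_num
    omega
  have h2 := g_mono h5
  rw [g_values.1] at h2
  linarith

/-- **Disjoint covering systems with repeated moduli.** -/
theorem result :
    -- the question, answered positively
    (∀ (ι : Type u) (a : ι → ℤ) (m : ι → ℕ), IsInfiniteDisjointCoveringSystem a m →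
      Function.Injective m → ∑' i, (1 : ℝ) / (m i : ℝ) = 1 →
      ∀ i, ∃ α β : ℕ, m i = 2 ^ α * 3 ^ β) ∧
    -- moduli repeated at most `M` times, families of disjoint classes of total density one
    (∀ (M : ℕ) (ι : Type u) (a : ι → ℤ) (m : ι → ℕ), IsDisjointFamily a m →
      MultiplicityAtMost m M → ∑' i, (1 : ℝ) / (m i : ℝ) = 1 →
      ∀ (i : ι) (p : ℕ), p.Prime → p ∣ m i → weight p ≤ M) ∧
    -- stability
    (∀ M Q : ℕ, (∀ p : ℕ, p.Prime → Q < p → (M : ℝ) < weight p) →
      ∃ c : ℝ, 0 < c ∧ ∀ (ι : Type u) (a : ι → ℤ) (m : ι → ℕ), IsDisjointFamily a m →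
        MultiplicityAtMost m M →
        c * (1 - smoothDensity m Q) ≤ 1 - ∑' i, (1 : ℝ) / (m i : ℝ)) ∧
    -- stability for distinct moduli
    (∃ c : ℝ, 0 < c ∧ ∀ (ι : Type u) (a : ι → ℤ) (m : ι → ℕ), IsDisjointFamily a m →
        Function.Injective m →
        c * (1 - smoothDensity m 3) ≤ 1 - ∑' i, (1 : ℝ) / (m i : ℝ)) ∧
    -- the primes which occur for `M = 1, 2, 3`
    (∀ p : ℕ, p.Prime → (Occurs 1 p ↔ p ≤ 3) ∧ (Occurs 2 p ↔ p ≤ 7) ∧ (Occurs 3 p ↔ p ≤ 13)) ∧
    -- the threshold for large `M`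
    (∀ ε : ℝ, 0 < ε → ∃ M₀ : ℕ, ∀ M : ℕ, M₀ ≤ M → ∀ p : ℕ, p.Prime →
      ((p : ℝ) ≤ (1 - ε) * Real.exp Real.eulerMascheroniConstant * M * Real.log M →
        Occurs M p) ∧
      (Occurs M p →
        (p : ℝ) ≤ (1 + ε) * Real.exp Real.eulerMascheroniConstant * M * Real.log M)) := by
  refine ⟨?_, ?_, ?_, ?_, first_values, ?_⟩
  · intro ι a m hs hinj hsum i
    have hi := hs.two_le i
    refine Pool.Agent.Results.MP_cda74c_nt.Full.smooth_three (m i) (by omega) ?_
    intro p hp hpi
    have := bound 1 a m (ofSystem hs) (injective_mult hinj) hsum i p hp hpi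
    rw [Nat.cast_one] at this
    exact le_three_of_weight hp this
  · intro M ι a m hd hm hs i p hp hpi
    exact bound M a m hd hm hs i p hp hpi
  · exact stab
  · obtain ⟨c, hc, hst⟩ := stab.{u} 1 3 (by
      intro p hp h3
      by_contra hcon
      push Not at hcon
      rw [Nat.cast_one] at hcon
      have := le_three_of_weight hp hcon
      omega)
    exact ⟨c, hc, fun ι a m hd hinj => hst ι a m hd (injective_mult hinj)⟩
  · intro ε hε
    obtain ⟨M₁, hM₁⟩ := Pool.Agent.Y354.FS.lower_asym ε hε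
    obtain ⟨M₂, hM₂⟩ := Pool.Agent.Y354.FS.upper_asym ε hε
    refine ⟨max M₁ M₂, fun M hM p hp => ⟨fun h => ?_, fun h => ?_⟩⟩
    · exact occurs_of hp (hM₁ M ((le_max_left _ _).trans hM) p hp h)
    · obtain ⟨ι, a, m, hs, hm, hsum, i, hi⟩ := h
      have h1 := Pool.Agent.Y354.FS.prime_bound M a m (toDisj (ofSystem hs)) (toMult hm) hsum i p
        hp hi
      apply hM₂ M ((le_max_right _ _).trans hM) p
      have h2 : Pool.Agent.Y354.FS.g p = Pool.Agent.Y354.FS.g (p - 1) := by
        have h3 := hp.one_lt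
        have h4 : p = (p - 1) + 1 := by omega
        have h5 := Pool.Agent.Y354.FS.g_succ_prime (p - 1) (by rw [← h4]; exact hp)
        rw [← h4] at h5
        exact h5
      rw [h2]
      exact h1

end Pool.Agent.Results.MP_cda74c_nt.RepeatedModuli
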